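import Pool.Agent.helper96.PP2.SpecA

/-!
# Row pg:OPN: vanishing of the third cohomology passes to open subgroups
-/

set_option autoImplicit false

namespace Pool.Agent.PP2

open Topology

section Trans

variable {G : Type} [Group G] (U : Subgroup G)

/-- the right coset of `x`, as the left coset of the inverse -/
private def OPN_q (x : G) : G ⧸ U := ((x⁻¹ : G) : G ⧸ U)

open scoped Classical in
/-- representatives -/
private noncomputable def OPN_rep (c : G ⧸ U) : G := if c = ((1 : G) : G ⧸ U) then 1 else (c.out)⁻¹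

private theorem OPN_q_eq (x y : G) : OPN_q U x = OPN_q U y ↔ x * y⁻¹ ∈ U := by
  unfold OPN_q
  rw [QuotientGroup.eq, inv_inv]

private theorem OPN_q_rep (c : G ⧸ U) : OPN_q U (OPN_rep U c) = c := by
  unfold OPN_q OPN_rep
  split_ifs with h
  · rw [inv_one, h]
  · rw [inv_inv]
    exact QuotientGroup.out_eq' c

private noncomputable def OPN_u (x : G) : U := ⟨x * (OPN_rep U (OPN_q U x))⁻¹, by
  rw [← OPN_q_eq, OPN_q_rep]⟩

private theorem OPN_u_rep (x : G) : (OPN_u U x : G) * OPN_rep U (OPN_q U x) = x := by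
  unfold OPN_u
  simp

private theorem OPN_q_mul (v : U) (x : G) : OPN_q U (v * x) = OPN_q U x := by
  rw [OPN_q_eq]
  simp

private theorem OPN_u_mul (v : U) (x : G) : OPN_u U (v * x) = v * OPN_u U x := by
  apply Subtype.ext
  unfold OPN_u
  simp only [OPN_q_mul, Subgroup.coe_mul]
  rw [mul_assoc]

private theorem OPN_u_coe (v : U) : OPN_u U (v : G) = v := by
  have h1 : OPN_u U (v : G) = v * OPN_u U 1 := by
    rw [← OPN_u_mul, mul_one]
  have h2 : OPN_u U 1 = 1 := by
    apply Subtype.ext
    unfold OPN_u OPN_rep OPN_q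
    simp
  rw [h1, h2, mul_one]

private theorem OPN_u_one : OPN_u U 1 = 1 := by
  have := OPN_u_coe U 1
  simpa using this

variable [TopologicalSpace G] [IsTopologicalGroup G]

private theorem OPN_q_cont : Continuous (OPN_q U) :=
  QuotientGroup.continuous_mk.comp continuous_inv

private theorem OPN_u_cont (hU : IsOpen (U : Set G)) : Continuous (OPN_u U) := by
  have hd : DiscreteTopology (G ⧸ U) := QuotientGroup.discreteTopology hU
  unfold OPN_u
  refine Continuous.subtype_mk ?_ _
  have h1 : Continuous (OPN_rep U) := continuous_of_discreteTopology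
  exact continuous_id.mul ((h1.comp (OPN_q_cont U)).inv)

end Trans

section Ind

variable {G : Type} [Group G] (U : Subgroup G) (A : Type) [AddCommGroup A] [DistribMulAction U A]

/-- the induced module -/
private def OPN_I : AddSubgroup (G → A) where
  carrier := {f | ∀ (v : U) (x : G), f (v * x) = v • f x}
  zero_mem' := fun v _ => (smul_zero v).symm
  add_mem' := by
    intro f g hf hg v x
    rw [Pi.add_apply, Pi.add_apply, hf v x, hg v x, smul_add]
  neg_mem' := by
    intro f hf v x
    rw [Pi.neg_apply, Pi.neg_apply, hf v x, smul_neg]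

private instance OPN_act : DistribMulAction G (OPN_I U A) where
  smul g f := ⟨fun x => f.1 (x * g), fun v x => by
    have h := f.2 v (x * g)
    rw [← mul_assoc] at h
    exact h⟩
  one_smul f := by
    apply Subtype.ext
    funext x
    change f.1 (x * 1) = f.1 x
    rw [mul_one]
  mul_smul g h f := by
    apply Subtype.ext
    funext x
    change f.1 (x * (g * h)) = f.1 (x * g * h)
    rw [mul_assoc]
  smul_zero g := rfl
  smul_add g f f' := rfl

private theorem OPN_act_apply (g : G) (f : OPN_I U A) (x : G) : (g • f).1 x = f.1 (x * g) := rfl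

/-- a function is determined by its values at the representatives -/
private theorem OPN_val (f : OPN_I U A) (x : G) :
    f.1 x = OPN_u U x • f.1 (OPN_rep U (OPN_q U x)) := by
  rw [← f.2 (OPN_u U x), OPN_u_rep]

private noncomputable def OPN_e : OPN_I U A ≃ (G ⧸ U → A) where
  toFun f c := f.1 (OPN_rep U c)
  invFun ψ := ⟨fun x => OPN_u U x • ψ (OPN_q U x), fun v x => by
    simp only [OPN_u_mul, OPN_q_mul, mul_smul]⟩
  left_inv f := by
    apply Subtype.ext
    funext x
    exact (OPN_val U A f x).symm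
  right_inv ψ := by
    funext c
    change OPN_u U (OPN_rep U c) • ψ (OPN_q U (OPN_rep U c)) = ψ c
    have h : OPN_u U (OPN_rep U c) = 1 := by
      apply Subtype.ext
      unfold OPN_u
      simp only [OPN_q_rep]
      simp
    rw [h, OPN_q_rep, one_smul]

end Ind

section Top

variable {G : Type} [Group G] [TopologicalSpace G] [IsTopologicalGroup G]
  (U : Subgroup G) (A : Type) [AddCommGroup A] [DistribMulAction U A]

private theorem OPN_smul_lc (hs : Smooth U A) (a : A) : IsLocallyConstant (fun v : U => v • a) := by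
  rw [IsLocallyConstant.iff_isOpen_fiber_apply]
  intro v₀
  have h : (fun v : U => v • a) ⁻¹' {v₀ • a} = (fun v : U => v₀⁻¹ * v) ⁻¹' {g : U | g • a = a} := by
    ext v
    simp only [Set.mem_preimage, Set.mem_singleton_iff, Set.mem_ofPred_eq]
    rw [mul_smul, inv_smul_eq_iff]
  rw [h]
  exact (hs a).preimage (continuous_const_mul _)

private theorem OPN_lc [CompactSpace G] (hU : IsOpen (U : Set G)) {X : Type} [TopologicalSpace X]
    (C : X → OPN_I U A) (h : ∀ x : G, IsLocallyConstant (fun y => (C y).1 x)) : IsLocallyConstant C := by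
  have hfin : Finite (G ⧸ U) := U.quotient_finite_of_isOpen hU
  let _ : TopologicalSpace A := ⊥
  have : DiscreteTopology A := ⟨rfl⟩
  have h1 : IsLocallyConstant (fun y => OPN_e U A (C y)) := by
    rw [IsLocallyConstant.iff_continuous]
    refine continuous_pi fun c => ?_
    exact (h (OPN_rep U c)).continuous
  have h2 : C = fun y => (OPN_e U A).symm (OPN_e U A (C y)) := by
    funext y
    rw [Equiv.symm_apply_apply]
  rw [h2]
  exact h1.comp _

end Top

private theorem OPN_smooth {G : Type} [Group G] [TopologicalSpace G] [IsTopologicalGroup G] [CompactSpace G]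
    (U : Subgroup G) (A : Type) [AddCommGroup A] [DistribMulAction U A] (hU : IsOpen (U : Set G))
    (hs : Smooth U A) : Smooth G (OPN_I U A) := by
  intro φ
  have hd : DiscreteTopology (G ⧸ U) := QuotientGroup.discreteTopology hU
  have h : IsLocallyConstant (fun g : G => g • φ) := by
    refine OPN_lc U A hU _ fun x => ?_
    simp only [OPN_act_apply]
    let _ : TopologicalSpace A := ⊥
    have : DiscreteTopology A := ⟨rfl⟩
    rw [IsLocallyConstant.iff_continuous]
    have h1 : Continuous φ.1 := by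
      have h2 : φ.1 = fun x => OPN_u U x • φ.1 (OPN_rep U (OPN_q U x)) := by
        funext x
        exact OPN_val U A φ x
      rw [h2]
      have h3 : Continuous (fun z : U × (G ⧸ U) => z.1 • φ.1 (OPN_rep U z.2)) := by
        rw [continuous_prod_of_discrete_right]
        intro c
        exact (OPN_smul_lc U A hs (φ.1 (OPN_rep U c))).continuous
      exact h3.comp ((OPN_u_cont U hU).prodMk (OPN_q_cont U))
    exact h1.comp (continuous_const_mul x)
  have h4 := h.isOpen_fiber φ
  exact h4

theorem OPN_row : OPN_stmt := by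
  intro p G _ _ _ _ hp hG U hU A _ _ hfin hcard hs f hf hcoc
  have hfinQ : Finite (G ⧸ U) := U.quotient_finite_of_isOpen hU
  have hdQ : DiscreteTopology (G ⧸ U) := QuotientGroup.discreteTopology hU
  obtain ⟨k, hk⟩ := hcard
  let _ : TopologicalSpace A := ⊥
  have hdA : DiscreteTopology A := ⟨rfl⟩
  -- the inhomogeneous cochain in homogeneous form
  obtain ⟨F, hF⟩ : ∃ F : G → G → G → G → A, ∀ x0 x1 x2 x3, F x0 x1 x2 x3 =
      OPN_u U x0 • f ((OPN_u U x0)⁻¹ * OPN_u U x1) ((OPN_u U x1)⁻¹ * OPN_u U x2)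
        ((OPN_u U x2)⁻¹ * OPN_u U x3) := ⟨_, fun _ _ _ _ => rfl⟩
  have hFv : ∀ (v : U) (x0 x1 x2 x3 : G), F (v * x0) (v * x1) (v * x2) (v * x3) = v • F x0 x1 x2 x3 := by
    intro v x0 x1 x2 x3
    rw [hF, hF]
    simp only [OPN_u_mul]
    rw [mul_smul]
    have e : ∀ a b : U, (v * a)⁻¹ * (v * b) = a⁻¹ * b := by
      intro a b
      group
    rw [e, e, e]
  have hFd : ∀ x0 x1 x2 x3 x4 : G, F x1 x2 x3 x4 - F x0 x2 x3 x4 + F x0 x1 x3 x4 - F x0 x1 x2 x4 +
      F x0 x1 x2 x3 = 0 := by
    intro x0 x1 x2 x3 x4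
    have h := hcoc ((OPN_u U x0)⁻¹ * OPN_u U x1) ((OPN_u U x1)⁻¹ * OPN_u U x2)
        ((OPN_u U x2)⁻¹ * OPN_u U x3) ((OPN_u U x3)⁻¹ * OPN_u U x4)
    have h2 := congrArg (fun a => OPN_u U x0 • a) h
    simp only [d3, smul_zero, smul_sub, smul_add] at h2
    rw [← mul_smul] at h2
    have e : ∀ a b c : U, (a⁻¹ * b) * (b⁻¹ * c) = a⁻¹ * c := by
      intro a b c
      group
    rw [e, e, e, mul_inv_cancel_left] at h2
    simp only [hF]
    exact h2
  have hsm : Continuous (fun z : U × A => z.1 • z.2) := by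
    rw [continuous_prod_of_discrete_right]
    intro a
    exact (OPN_smul_lc U A hs a).continuous
  have hfc : Continuous (fun x : U × U × U => f x.1 x.2.1 x.2.2) := hf.continuous
  have huc := OPN_u_cont U hU
  have hFc : Continuous (fun z : G × G × G × G => F z.1 z.2.1 z.2.2.1 z.2.2.2) := by
    have e : (fun z : G × G × G × G => F z.1 z.2.1 z.2.2.1 z.2.2.2) = fun z =>
        (fun z : U × A => z.1 • z.2) (OPN_u U z.1, (fun x : U × U × U => f x.1 x.2.1 x.2.2)
          ((OPN_u U z.1)⁻¹ * OPN_u U z.2.1, (OPN_u U z.2.1)⁻¹ * OPN_u U z.2.2.1,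
            (OPN_u U z.2.2.1)⁻¹ * OPN_u U z.2.2.2)) := by
      funext z
      rw [hF]
    rw [e]
    refine hsm.comp (Continuous.prodMk (huc.comp continuous_fst) (hfc.comp ?_))
    fun_prop
  -- the cocycle on `G`
  obtain ⟨C, hC⟩ : ∃ C : G → G → G → OPN_I U A, ∀ g1 g2 g3 x, (C g1 g2 g3).1 x =
      F x (x * g1) (x * (g1 * g2)) (x * (g1 * g2 * g3)) := by
    refine ⟨fun g1 g2 g3 => ⟨fun x => F x (x * g1) (x * (g1 * g2)) (x * (g1 * g2 * g3)), ?_⟩, fun _ _ _ _ => rfl⟩
    intro v x
    rw [← hFv]
    simp only [mul_assoc]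
  have hCL : LC3 C := by
    refine OPN_lc U A hU _ fun x => ?_
    simp only [hC]
    rw [IsLocallyConstant.iff_continuous]
    have e : (fun y : G × G × G => F x (x * y.1) (x * (y.1 * y.2.1)) (x * (y.1 * y.2.1 * y.2.2))) =
        fun y => (fun z : G × G × G × G => F z.1 z.2.1 z.2.2.1 z.2.2.2)
          (x, x * y.1, x * (y.1 * y.2.1), x * (y.1 * y.2.1 * y.2.2)) := rfl
    rw [e]
    refine hFc.comp ?_
    fun_prop
  have hCd : ∀ a b c d, d3 C a b c d = 0 := by
    intro a b c d
    apply Subtype.ext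
    funext x
    have h := hFd x (x * a) (x * (a * b)) (x * (a * b * c)) (x * (a * b * c * d))
    change (a • C b c d).1 x - (C (a * b) c d).1 x + (C a (b * c) d).1 x - (C a b (c * d)).1 x +
      (C a b c).1 x = 0
    rw [OPN_act_apply, hC, hC, hC, hC, hC]
    simp only [mul_assoc] at h ⊢
    exact h
  obtain ⟨B, hB, hCB⟩ := hG (OPN_I U A) (Finite.of_equiv _ (OPN_e U A).symm)
    ⟨k * Nat.card (G ⧸ U), by rw [Nat.card_congr (OPN_e U A), Nat.card_fun, hk, pow_mul]⟩
    (OPN_smooth U A hU hs) C hCL hCd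
  refine ⟨fun v w => (B v w).1 1, ?_, ?_⟩
  · have h1 : IsLocallyConstant (fun x : G × G => (B x.1 x.2).1 1) := hB.comp (fun b => b.1 1)
    exact h1.comp_continuous (f := fun x : U × U => ((x.1 : G), (x.2 : G))) (by fun_prop)
  · intro a b c
    have h1 := congrArg (fun φ : OPN_I U A => φ.1 1) (hCB a b c)
    have h2 : (C a b c).1 1 = f a b c := by
      rw [hC, hF]
      have e1 : (1 : G) * (a : G) = ((a : U) : G) := one_mul _
      have e2 : (1 : G) * ((a : G) * (b : G)) = ((a * b : U) : G) := one_mul _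
      have e3 : (1 : G) * ((a : G) * (b : G) * (c : G)) = ((a * b * c : U) : G) := one_mul _
      rw [e1, e2, e3, OPN_u_one, OPN_u_coe, OPN_u_coe, OPN_u_coe, one_smul]
      have e4 : (1 : U)⁻¹ * a = a := by group
      have e5 : a⁻¹ * (a * b) = b := by group
      have e6 : (a * b)⁻¹ * (a * b * c) = c := by group
      rw [e4, e5, e6]
    have h3 : (d2 B (a : G) (b : G) (c : G)).1 1 = a • (B b c).1 1 - (B (a * b) c).1 1 + (B a (b * c)).1 1
        - (B a b).1 1 := by
      change ((a : G) • B b c).1 1 - (B (a * b) c).1 1 + (B a (b * c)).1 1 - (B a b).1 1 = _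
      rw [OPN_act_apply]
      have e : (B (b : G) (c : G)).1 (1 * (a : G)) = a • (B b c).1 1 := by
        rw [← (B (b : G) (c : G)).2 a 1, one_mul, mul_one]
      rw [e]
    rw [← h2]
    exact h1.trans h3

end Pool.Agent.PP2
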